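import Mathlib

open Finset

namespace Pool.Agent.Results.MP_cec948_nt.Fails

def bin (a : ℚ) (k : ℕ) : ℚ := (∏ i ∈ range k, (a - i)) / k.factorial

def Cg (p m : ℕ) (u v : ℚ) : Prop := (p : ℤ) ^ m ∣ (u - v).num

def S (p : ℕ) : ℚ := ∑ k ∈ range p, bin (-1 / 4) k * bin (-1 / 2) k / (-3) ^ k
def T (p : ℕ) : ℚ := ∑ k ∈ range p, bin (-1 / 4) k * bin (-1 / 2) k / 81 ^ k

theorem result : ¬ ∀ p : ℕ, p.Prime → 5 ≤ p →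
    (p % 4 = 1 → ∃ x y : ℤ, Odd x ∧ (p : ℤ) = x ^ 2 + y ^ 2 ∧
      Cg p 2 (S p) ((-1) ^ ((p - 1) / 4) * T p) ∧ Cg p 2 (S p) (2 * x - p / (2 * x))) ∧
    (p % 4 = 3 → Cg p 1 (S p) 0 ∧ Cg p 1 (T p) 0) := by
  intro h
  obtain ⟨x, y, -, -, h1, -⟩ := (h 13 (by norm_num) (by norm_num)).1 rfl
  revert h1
  unfold Cg S T bin
  decide +kernel

end Pool.Agent.Results.MP_cec948_nt.Fails
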